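import Pool.Agent.Lib.MP_6b029b_lc.Step

open Set Cardinal

namespace Pool.Agent.Lib.MP_6b029b_lc

/-- The least closed set containing `S`. -/
def Cl (φ : R → Set R) (S : Set R) : Set R := ⋂₀ {N | Closed φ N ∧ S ⊆ N}

lemma closed_Cl (φ : R → Set R) (S : Set R) : Closed φ (Cl φ S) where
  compl x hx N hN := hN.1.compl x (hx N hN)
  inter x hx y hy N hN := hN.1.inter x (hx N hN) y (hy N hN)
  cd x hx N hN := hN.1.cd x (hx N hN)
  phi x hx _ hy N hN := hN.1.phi x (hx N hN) hy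

lemma subset_Cl (φ : R → Set R) (S : Set R) : S ⊆ Cl φ S := fun _ hx _ hN => hN.2 hx

lemma Cl_min {φ : R → Set R} {S N : Set R} (hN : Closed φ N) (h : S ⊆ N) : Cl φ S ⊆ N :=
  fun _ hx => hx N ⟨hN, h⟩

lemma Cl_mono {φ : R → Set R} {S T : Set R} (h : S ⊆ T) : Cl φ S ⊆ Cl φ T :=
  Cl_min (closed_Cl φ T) (h.trans (subset_Cl φ T))

lemma small_iUnion {α ι : Type} {f : ι → Set α} (hι : #ι ≤ ℵ₁) (hf : ∀ i, #(f i) ≤ ℵ₁) :
    #(⋃ i, f i) ≤ ℵ₁ := by
  refine (mk_iUnion_le_sum_mk).trans ?_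
  refine (sum_le_sum _ (fun _ => ℵ₁) hf).trans ?_
  rw [sum_const, lift_id, lift_id]
  exact (mul_le_mul' hι le_rfl).trans (mul_eq_self (aleph0_le_aleph 1)).le

lemma small_union {α : Type} {s t : Set α} (hs : #s ≤ ℵ₁) (ht : #t ≤ ℵ₁) :
    #(s ∪ t : Set α) ≤ ℵ₁ :=
  (mk_union_le s t).trans ((add_le_add hs ht).trans (add_eq_self (aleph0_le_aleph 1)).le)

lemma small_image {α β : Type} {s : Set α} (f : α → β) (hs : #s ≤ ℵ₁) :
    #(f '' s) ≤ ℵ₁ := mk_image_le.trans hs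

lemma small_image2 {α β γ : Type} {s : Set α} {t : Set β} (f : α → β → γ) (hs : #s ≤ ℵ₁)
    (ht : #t ≤ ℵ₁) : #(image2 f s t) ≤ ℵ₁ := by
  rw [← image_uncurry_prod]
  refine mk_image_le.trans ?_
  rw [mk_setProd]
  exact (mul_le_mul' hs ht).trans (mul_eq_self (aleph0_le_aleph 1)).le

/-- one closing-off step -/
def cstep (φ : R → Set R) (T : Set R) : Set R :=
  T ∪ (compl '' T ∪ (image2 (· ∩ ·) T T ∪ (cd '' T ∪ ⋃ x : T, φ x)))

lemma subset_cstep (φ : R → Set R) (T : Set R) : T ⊆ cstep φ T := subset_union_left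

lemma small_cstep {φ : R → Set R} (hφc : ∀ A, (φ A).Countable) {T : Set R} (hT : #T ≤ ℵ₁) :
    #(cstep φ T) ≤ ℵ₁ := by
  refine small_union hT (small_union (small_image _ hT) (small_union (small_image2 _ hT hT)
    (small_union (small_image _ hT) (small_iUnion hT fun x => ?_))))
  have : #(φ x) ≤ ℵ₀ := le_aleph0_iff_set_countable.2 (hφc _)
  exact this.trans (aleph0_le_aleph 1)

lemma small_Cl {φ : R → Set R} (hφc : ∀ A, (φ A).Countable) {S : Set R} (hS : #S ≤ ℵ₁) :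
    #(Cl φ S) ≤ ℵ₁ := by
  let T : ℕ → Set R := fun k => (cstep φ)^[k] S
  have hT0 : T 0 = S := rfl
  have hTs : ∀ k, T (k + 1) = cstep φ (T k) := fun k => Function.iterate_succ_apply' _ _ _
  have hmono : Monotone T := by
    apply monotone_nat_of_le_succ
    intro k
    rw [hTs]
    exact subset_cstep φ _
  have hsmall : ∀ k, #(T k) ≤ ℵ₁ := by
    intro k
    induction k with
    | zero => exact hS
    | succ k ih => rw [hTs]; exact small_cstep hφc ih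
  have hcl : Closed φ (⋃ k, T k) := by
    constructor
    · intro x hx
      obtain ⟨k, hk⟩ := mem_iUnion.1 hx
      refine mem_iUnion.2 ⟨k + 1, ?_⟩
      rw [hTs]
      exact Or.inr (Or.inl ⟨x, hk, rfl⟩)
    · intro x hx y hy
      obtain ⟨k, hk⟩ := mem_iUnion.1 hx
      obtain ⟨l, hl⟩ := mem_iUnion.1 hy
      refine mem_iUnion.2 ⟨max k l + 1, ?_⟩
      rw [hTs]
      exact Or.inr (Or.inr (Or.inl ⟨x, hmono (le_max_left _ _) hk, y,
        hmono (le_max_right _ _) hl, rfl⟩))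
    · intro x hx
      obtain ⟨k, hk⟩ := mem_iUnion.1 hx
      refine mem_iUnion.2 ⟨k + 1, ?_⟩
      rw [hTs]
      exact Or.inr (Or.inr (Or.inr (Or.inl ⟨x, hk, rfl⟩)))
    · intro x hx y hy
      obtain ⟨k, hk⟩ := mem_iUnion.1 hx
      refine mem_iUnion.2 ⟨k + 1, ?_⟩
      rw [hTs]
      exact Or.inr (Or.inr (Or.inr (Or.inr (mem_iUnion.2 ⟨⟨x, hk⟩, hy⟩))))
  refine (mk_le_mk_of_subset (Cl_min hcl ?_)).trans
    (small_iUnion ((mk_nat.le).trans (aleph0_le_aleph 1)) hsmall)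
  intro x hx
  exact mem_iUnion.2 ⟨0, hx⟩

end Pool.Agent.Lib.MP_6b029b_lc
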