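import Mathlib

/-!
# The hypotheses of the theorem and the notion of universality
-/

open Cardinal Ordinal Filter Set

namespace Pool.Agent.Lib.MP_6b029b_lc

/-- The weak Freese–Nation property of `(𝒫(X), ⊆)`: there is a map `φ` assigning to every subset
of `X` a countable family of subsets of `X` such that whenever `A ⊆ B`, some
`C ∈ φ A ∩ φ B` satisfies `A ⊆ C ⊆ B`. -/
def WFN (X : Type) : Prop :=
  ∃ φ : Set X → Set (Set X), (∀ A, (φ A).Countable) ∧
    ∀ A B, A ⊆ B → ∃ C, C ∈ φ A ∧ C ∈ φ B ∧ A ⊆ C ∧ C ⊆ B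

/-- Jensen's principle `◇(S²₁)`: there is a sequence `(S γ)_{γ < ω₂}` such that for every
`T ⊆ ω₂` the set of all `γ < ω₂` of cofinality `ℵ₁` with `T ∩ γ = S γ` is stationary in `ω₂`. -/
def DiamondS21 : Prop :=
  ∃ S : (ω_ 2 : Ordinal.{0}).ToType → Set (ω_ 2 : Ordinal.{0}).ToType,
    ∀ T : Set (ω_ 2 : Ordinal.{0}).ToType,
      IsStationary {γ | Order.cof (Set.Iio γ) = ℵ₁ ∧ T ∩ Set.Iio γ = S γ}

end Pool.Agent.Lib.MP_6b029b_lc
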