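import Pool.Agent.Lib.MP_6b029b_lc.Rec

open Set Cardinal Filter

namespace Pool.Agent.Lib.MP_6b029b_lc

/-- closure points of a function form a club -/
lemma isClub_closure (G : Ω → Ω) : IsClub {γ : Ω | ∀ δ < γ, G δ < γ} where
  dirSupClosed := by
    intro d hd hne _ a ha δ hδ
    obtain ⟨x, hx, hδx⟩ := (lt_isLUB_iff ha).1 hδ
    exact (hd hx δ hδx).trans_le (ha.1 hx)
  isCofinal := by
    intro a
    -- strict upper bounds
    have hb : ∀ x : Ω, ∃ y, x < y ∧ ∀ δ ≤ x, G δ < y := by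
      intro x
      have h1 : #(G '' Iic x) ≤ ℵ₁ := by
        obtain ⟨x', hx'⟩ := exists_gt x
        refine mk_image_le.trans ((mk_le_mk_of_subset ?_).trans (mk_Iio_le x'))
        exact fun z hz => lt_of_le_of_lt hz hx'
      obtain ⟨b, hb⟩ := exists_bound h1
      obtain ⟨y, hy⟩ := exists_gt (max b x)
      exact ⟨y, (le_max_right _ _).trans_lt hy, fun δ hδ =>
        (hb _ ⟨δ, hδ, rfl⟩).trans_lt ((le_max_left _ _).trans_lt hy)⟩
    choose g hg1 hg2 using hb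
    let s : ℕ → Ω := fun n => g^[n] a
    have hs : ∀ n, s (n + 1) = g (s n) := fun n => Function.iterate_succ_apply' _ _ _
    have hsm : Monotone s := monotone_nat_of_le_succ fun n => by rw [hs]; exact (hg1 _).le
    have h1 : #(range s) ≤ ℵ₁ := mk_range_le.trans ((mk_nat.le).trans (aleph0_le_aleph 1))
    obtain ⟨b, hb⟩ := exists_bound h1
    -- least upper bound
    have hex : ∃ b, ∀ n, s n ≤ b := ⟨b, fun n => hb _ ⟨n, rfl⟩⟩
    obtain ⟨c, hc, hmin⟩ := WellFounded.has_min (wellFounded_lt (α := Ω))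
      {b | ∀ n, s n ≤ b} hex
    refine ⟨c, ?_, hc 0⟩
    intro δ hδ
    have : ∃ n, δ < s n := by
      by_contra h
      push Not at h
      exact hmin δ h hδ
    obtain ⟨n, hn⟩ := this
    have h2 := hg2 (s n) δ hn.le
    rw [← hs] at h2
    exact h2.trans_le (hc _)

theorem no_chain {φ : R → Set R} (hφc : ∀ A, (φ A).Countable)
    (hφ : ∀ A B : R, A ⊆ B → ∃ C, C ∈ φ A ∧ C ∈ φ B ∧ A ⊆ C ∧ C ⊆ B)
    (r : Ω ≃ R) (S : Ω → Set Ω)
    (hS : ∀ T : Set Ω, IsStationary {γ | Order.cof (Iio γ) = ℵ₁ ∧ T ∩ Iio γ = S γ}) :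
    ∃ u : Ultrafilter ℕ, (u : Filter ℕ) ≤ Filter.cofinite ∧
      ∀ e : Ω → R, ¬ ∀ ξ η, le' (e ξ) (e η) ∈ u ↔ ξ ≤ η := by
  classical
  set F := Fil φ r S with hF
  have hstep : ∀ α, Step φ r S α F (F α) := Fil_step r S hφc hφ
  have hanti : ∀ α β, α ≤ β → F β ≤ F α := by
    intro α β h
    rcases h.lt_or_eq with h | h
    · exact (hstep β).le α h
    · rw [h]
  have hne : NeBot (⨅ α, F α) := by
    apply iInf_neBot_of_directed
    · intro a b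
      rcases le_total a b with h | h
      · exact ⟨b, hanti _ _ h, le_rfl⟩
      · exact ⟨a, le_rfl, hanti _ _ h⟩
    · exact fun α => (hstep α).neBot
  let u : Ultrafilter ℕ := Ultrafilter.of (⨅ α, F α)
  have hu : ∀ α, (u : Filter ℕ) ≤ F α := fun α => (Ultrafilter.of_le _).trans (iInf_le _ α)
  obtain ⟨α₀⟩ : Nonempty Ω := inferInstance
  refine ⟨u, (hu α₀).trans (hstep α₀).cofinite, ?_⟩
  intro e he
  -- decisions
  have hdec : ∀ α, ∀ a ∈ M φ r α, ∀ b ∈ M φ r α, le' a b ∈ u → le' a b ∈ F α := by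
    intro α a ha b hb h
    rcases (hstep α).dec _ ((closed_Cl φ _).cyl_compl_le_mem ha hb) with h1 | h1
    · exfalso
      have h2 := inter_mem (f := (u : Filter ℕ)) h (hu α h1)
      rw [inter_compl_self] at h2
      exact u.neBot.ne (empty_mem_iff_bot.1 h2)
    · rwa [compl_compl] at h1
  -- promises
  have hprom : ∀ γ, Prot r S (F γ) γ → ∀ f : R, (∀ a ∈ A r S γ, le' a f ∈ u) →
      ∃ c ∈ M φ r γ, (∀ a ∈ A r S γ, le' a c ∈ F γ) ∧ le' c f ∈ u := by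
    intro γ hP f hall
    obtain ⟨α, hα⟩ := exists_gt (max γ (r.symm f))
    have hγα : γ < α := (le_max_left _ _).trans_lt hα
    have hfα : f ∈ M φ r α := by
      have := r_mem φ r ((le_max_right γ (r.symm f)).trans_lt hα)
      rwa [r.apply_symm_apply] at this
    obtain ⟨c, h1, h2, h3⟩ := (hstep α).prom γ hγα hP f hfα (fun a ha =>
      hdec α a (M_mono φ r hγα.le (A_subset φ r S γ ha)) f hfα (hall a ha))
    exact ⟨c, h1, h2, hu α h3⟩
  have heinj : Function.Injective e := by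
    intro ξ η h
    apply le_antisymm
    · rw [← he ξ η, h, le'_refl]; exact univ_mem
    · rw [← he η ξ, h, le'_refl]; exact univ_mem
  -- the counting function
  let b : R → Ω := fun c => if h : ∃ ξ, le' (e ξ) c ∉ u then h.choose else α₀
  have hb : ∀ c, (∃ ξ, le' (e ξ) c ∉ u) → le' (e (b c)) c ∉ u := by
    intro c h
    have : b c = h.choose := dif_pos h
    rw [this]
    exact h.choose_spec
  have hG : ∀ δ : Ω, ∃ g : Ω, r.symm (e δ) ≤ g ∧ (∀ ξ, r.symm (e ξ) = δ → ξ ≤ g) ∧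
      ∀ c ∈ M φ r δ, b c ≤ g := by
    intro δ
    have h1 : #(({r.symm (e δ)} ∪ ({ξ | r.symm (e ξ) = δ} ∪ b '' M φ r δ) : Set Ω)) ≤ ℵ₁ := by
      refine small_union ?_ (small_union ?_ (small_image _ (small_M r hφc δ)))
      · rw [mk_singleton]
        exact one_le_aleph0.trans (aleph0_le_aleph 1)
      · have : Subsingleton ↥{ξ | r.symm (e ξ) = δ} := by
          constructor
          rintro ⟨ξ, hξ⟩ ⟨η, hη⟩
          exact Subtype.ext (heinj (r.symm.injective (hξ.trans hη.symm)))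
        exact (mk_le_one_iff_set_subsingleton.2 (Set.subsingleton_coe _ |>.1 this)).trans
          (one_le_aleph0.trans (aleph0_le_aleph 1))
    obtain ⟨g, hg⟩ := exists_bound h1
    exact ⟨g, hg _ (Or.inl rfl), fun ξ hξ => hg _ (Or.inr (Or.inl hξ)),
      fun c hc => hg _ (Or.inr (Or.inr ⟨c, hc, rfl⟩))⟩
  choose G hG1 hG2 hG3 using hG
  obtain ⟨γ, ⟨hcof, hT⟩, hcl⟩ := hS (range fun ξ => r.symm (e ξ)) (isClub_closure G)
  -- `γ` is a limit
  have hlim : ∀ δ < γ, ∃ δ', δ < δ' ∧ δ' < γ := by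
    by_contra h
    push Not at h
    obtain ⟨δ, hδ, hmax⟩ := h
    have h1 : Order.cof (Iio γ) = 1 := by
      rw [Order.cof_eq_one_iff]
      exact ⟨⟨δ, hδ⟩, fun x => not_lt.1 fun hx => absurd x.2 (not_lt.2 (hmax x.1 hx))⟩
    rw [h1] at hcof
    have : (ℵ₀ : Cardinal.{0}) ≤ 1 := by rw [hcof]; exact aleph0_le_aleph 1
    exact absurd this (not_le.2 one_lt_aleph0)
  have hne : Nonempty (Iio γ) := by
    rw [← Order.cof_ne_zero_iff, hcof]
    exact (aleph_pos 1).ne'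
  -- description of `A γ`
  have hA : A r S γ = e '' Iio γ := by
    rw [A, ← hT]
    ext x
    constructor
    · rintro ⟨δ, ⟨⟨⟨ξ, hξ⟩, -⟩, hδ⟩, rfl⟩
      refine ⟨ξ, (hG2 δ ξ hξ).trans_lt (hcl δ hδ), ?_⟩
      have hξ' : r.symm (e ξ) = δ := hξ
      rw [← hξ', r.apply_symm_apply]
    · rintro ⟨ξ, hξ, rfl⟩
      have h1 : r.symm (e ξ) < γ := (hG1 ξ).trans_lt (hcl ξ hξ)
      exact ⟨r.symm (e ξ), ⟨⟨⟨ξ, rfl⟩, h1⟩, h1⟩, r.apply_symm_apply _⟩
  have hAM : ∀ ξ < γ, e ξ ∈ M φ r γ := fun ξ hξ =>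
    A_subset φ r S γ (by rw [hA]; exact ⟨ξ, hξ, rfl⟩)
  -- `γ` is protected
  have hP : Prot r S (F γ) γ := by
    obtain ⟨⟨ξ₀, hξ₀⟩⟩ := hne
    refine ⟨by rw [hA]; exact ⟨e ξ₀, ξ₀, hξ₀, rfl⟩, fun κ => ?_⟩
    have h1 : IsCofinal (⋃ m : ℕ, {ξ : Iio γ | κ (e ξ) = m}) := by
      intro x
      exact ⟨x, mem_iUnion.2 ⟨κ (e x), rfl⟩, le_rfl⟩
    obtain ⟨m, hm⟩ := isCofinal_of_isCofinal_iUnion h1 (by
      rw [hcof, mk_nat]
      exact aleph0_lt_aleph_one)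
    refine ⟨m, ?_⟩
    rw [hA]
    rintro _ ⟨ξ, hξ, rfl⟩
    obtain ⟨⟨η, hη⟩, hηm, hξη⟩ := hm ⟨ξ, hξ⟩
    exact ⟨e η, ⟨η, hη, rfl⟩, hηm, hdec γ _ (hAM ξ hξ) _ (hAM η hη) ((he ξ η).2 hξη)⟩
  obtain ⟨c, hcM, hc1, hc2⟩ := hprom γ hP (e γ) (by
    rw [hA]
    rintro _ ⟨ξ, hξ, rfl⟩
    exact (he ξ γ).2 (le_of_lt hξ))
  -- `c` is not above the whole chain
  have hex : ∃ ξ, le' (e ξ) c ∉ u := by
    obtain ⟨ξ, hξ⟩ := exists_gt γ
    refine ⟨ξ, fun h => ?_⟩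
    have h2 : le' (e ξ) (e γ) ∈ u := mem_of_superset (inter_mem h hc2) (le'_trans _ _ _)
    exact absurd ((he ξ γ).1 h2) (not_le.2 hξ)
  have hbc := hb c hex
  -- `c` lies in a smaller `M δ`
  have hsub : M φ r γ ⊆ ⋃ δ : Iio γ, M φ r δ := by
    apply Cl_min (closed_union r γ)
    rintro x (hx | ⟨δ, hδ, rfl⟩)
    · obtain ⟨δ⟩ := hne
      exact mem_iUnion.2 ⟨δ, K₀_subset φ r δ hx⟩
    · obtain ⟨δ', h1, h2⟩ := hlim δ hδ
      exact mem_iUnion.2 ⟨⟨δ', h2⟩, r_mem φ r h1⟩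
  obtain ⟨⟨δ, hδ⟩, hcδ⟩ := mem_iUnion.1 (hsub hcM)
  have hbγ : b c < γ := (hG3 δ c hcδ).trans_lt (hcl δ hδ)
  exact hbc (hu γ (hc1 (e (b c)) (by rw [hA]; exact ⟨b c, hbγ, rfl⟩)))

end Pool.Agent.Lib.MP_6b029b_lc
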