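import Pool.Agent.Lib.MP_6b029b_lc.Final

open Set Cardinal Filter

namespace Pool.Agent.Lib.MP_6b029b_lc

/-- the weak Freese–Nation property is transported along a bijection -/
lemma WFN.transport {X Y : Type} (e : Y ≃ X) (h : WFN X) : WFN Y := by
  obtain ⟨φ, hc, hφ⟩ := h
  refine ⟨fun A => {C | e '' C ∈ φ (e '' A)}, fun A => ?_, fun A B hAB => ?_⟩
  · exact (hc _).preimage_of_injOn (e.injective.image_injective.injOn)
  · obtain ⟨C, h1, h2, h3, h4⟩ := hφ _ _ (image_mono (f := e) hAB)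
    have hC : e '' (e ⁻¹' C) = C := e.surjective.image_preimage C
    refine ⟨e ⁻¹' C, ?_, ?_, image_subset_iff.1 h3, ?_⟩
    · show e '' (e ⁻¹' C) ∈ φ (e '' A)
      rwa [hC]
    · show e '' (e ⁻¹' C) ∈ φ (e '' B)
      rwa [hC]
    · have := preimage_mono (f := e) h4
      rwa [e.injective.preimage_image] at this

theorem main (hW : WFN ℕ) (hc : Cardinal.continuum.{0} = ℵ_ 2) (hD : DiamondS21) :
    ∃ u : Ultrafilter ℕ, (∀ n : ℕ, {n} ∉ u) ∧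
      #((Ordinal.omega 2 : Ordinal.{0}).ToType) = Cardinal.continuum.{0} ∧
      IsEmpty ((Ordinal.omega 2 : Ordinal.{0}).ToType ↪o (u : Filter ℕ).Germ (Set ℕ)) := by
  obtain ⟨φ, hφc, hφ⟩ := hW.transport Nat.pairEquiv
  obtain ⟨S, hS⟩ := hD
  have hR : #R = #Ω := by
    rw [mk_Ω, ← hc]
    simp [R]
  obtain ⟨r⟩ := Cardinal.eq.1 hR.symm
  obtain ⟨u, hu, hno⟩ := no_chain hφc hφ r S hS
  refine ⟨u, fun n hn => ?_, by rw [hc]; exact mk_Ω, ⟨fun E => ?_⟩⟩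
  · have h1 : ({n} : Set ℕ)ᶜ ∈ u := hu (by simp)
    exact absurd hn (Ultrafilter.compl_mem_iff_notMem.1 h1)
  · have hrep : ∀ ξ : Ω, ∃ g : ℕ → Set ℕ, (g : (u : Filter ℕ).Germ (Set ℕ)) = E ξ := by
      intro ξ
      exact ⟨Quotient.out (E ξ), Quotient.out_eq (E ξ)⟩
    choose g hg using hrep
    refine hno (fun ξ => {p | p.2 ∈ g ξ p.1}) fun ξ η => ?_
    have h1 : le' {p | p.2 ∈ g ξ p.1} {p | p.2 ∈ g η p.1} = {n | g ξ n ≤ g η n} := rfl
    rw [h1, ← E.le_iff_le, ← hg ξ, ← hg η, Filter.Germ.coe_le]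
    rfl

end Pool.Agent.Lib.MP_6b029b_lc
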