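import Pool.Agent.Lib.MP_6b029b_lc.Closure

open Set Cardinal Filter

namespace Pool.Agent.Lib.MP_6b029b_lc

/-- `ω₂` as a type -/
abbrev Ω : Type := (Ordinal.omega 2 : Ordinal.{0}).ToType

lemma mk_Ω : #Ω = ℵ_ 2 := by
  rw [mk_toType, ← ord_aleph, card_ord]

lemma mk_Iio_le (α : Ω) : #(Iio α) ≤ ℵ₁ := by
  have h : #(Iio α) < #Ω := Cardinal.mk_Iio_lt α (by
    rw [mk_Ω, ord_aleph]; exact (Ordinal.type_toType _).symm)
  rw [mk_Ω] at h
  have h2 : (ℵ_ 2 : Cardinal.{0}) = Order.succ ℵ₁ := by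
    rw [succ_aleph]
    congr 1
    norm_num
  rw [h2, Order.lt_succ_iff] at h
  exact h

lemma cof_Ω : Order.cof Ω = ℵ_ 2 := by
  rw [Ordinal.cof_toType, ← ord_aleph]
  have h2 : (ℵ_ 2 : Cardinal.{0}) = Order.succ ℵ₁ := by
    rw [succ_aleph]
    congr 1
    norm_num
  rw [h2]
  exact (isRegular_succ (aleph0_le_aleph 1)).cof_ord

lemma aleph1_lt : (ℵ₁ : Cardinal.{0}) < ℵ_ 2 := aleph_lt_aleph.2 (by norm_num)

instance : NoMaxOrder Ω := by
  rw [← Ordinal.isSuccPrelimit_type_lt_iff, Ordinal.type_toType, ← ord_aleph]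
  exact (isSuccLimit_ord (aleph0_le_aleph 2)).isSuccPrelimit

instance : Nonempty Ω := by
  rw [← mk_ne_zero_iff, mk_Ω]
  exact (aleph_pos 2).ne'

/-- a set of size `≤ ℵ₁` in `Ω` is bounded -/
lemma exists_bound {s : Set Ω} (hs : #s ≤ ℵ₁) : ∃ b : Ω, ∀ x ∈ s, x ≤ b := by
  have h : ¬ IsCofinal s := by
    intro h
    have := Order.cof_le h
    rw [cof_Ω] at this
    exact absurd (this.trans hs) (not_le.2 aleph1_lt)
  rw [not_isCofinal_iff] at h
  obtain ⟨b, hb⟩ := h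
  exact ⟨b, fun x hx => (hb x hx).le⟩

/-- cylinders over cofinite sets -/
def K₀ : Set R := {x | ∃ Y : Set ℕ, Yᶜ.Finite ∧ cyl Y = x}

lemma K₀_countable : K₀.Countable := by
  have : K₀ = (fun Y : Set ℕ => cyl Yᶜ) '' {Y | Y.Finite} := by
    ext x
    constructor
    · rintro ⟨Y, hY, rfl⟩
      exact ⟨Yᶜ, hY, by simp⟩
    · rintro ⟨Y, hY, rfl⟩
      exact ⟨Yᶜ, by simpa using hY, rfl⟩
  rw [this]
  exact (Set.Countable.ofPred_finite).image _

section

variable (φ : R → Set R) (r : Ω ≃ R) (S : Ω → Set Ω)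

/-- the small closed sets -/
def M (α : Ω) : Set R := Cl φ (K₀ ∪ r '' Iio α)

/-- the protected families -/
def A (γ : Ω) : Set R := r '' (S γ ∩ Iio γ)

lemma A_subset (γ : Ω) : A r S γ ⊆ M φ r γ := by
  rintro _ ⟨δ, hδ, rfl⟩
  exact subset_Cl φ _ (Or.inr ⟨δ, hδ.2, rfl⟩)

lemma M_mono {α β : Ω} (h : α ≤ β) : M φ r α ⊆ M φ r β :=
  Cl_mono (union_subset_union_right _ (image_mono (Iio_subset_Iio h)))

lemma K₀_subset (α : Ω) : K₀ ⊆ M φ r α := subset_union_left.trans (subset_Cl φ _)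

lemma r_mem {α δ : Ω} (h : δ < α) : r δ ∈ M φ r α := subset_Cl φ _ (Or.inr ⟨δ, h, rfl⟩)

lemma K₀_nonempty : K₀.Nonempty := ⟨_, univ, by simp, rfl⟩

variable {φ} in
lemma small_M (hφc : ∀ A, (φ A).Countable) (α : Ω) : #(M φ r α) ≤ ℵ₁ := by
  apply small_Cl hφc
  apply small_union
  · exact (le_aleph0_iff_set_countable.2 K₀_countable).trans (aleph0_le_aleph 1)
  · exact small_image _ (mk_Iio_le α)

variable {φ} in
/-- union of a chain of closed sets -/
lemma closed_union (α : Ω) : Closed φ (⋃ β : Iio α, M φ r β) where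
  compl x hx := by
    obtain ⟨β, hβ⟩ := mem_iUnion.1 hx
    exact mem_iUnion.2 ⟨β, (closed_Cl φ _).compl x hβ⟩
  inter x hx y hy := by
    obtain ⟨β, hβ⟩ := mem_iUnion.1 hx
    obtain ⟨β', hβ'⟩ := mem_iUnion.1 hy
    rcases le_total β.1 β'.1 with h | h
    · exact mem_iUnion.2 ⟨β', (closed_Cl φ _).inter x (M_mono φ r h hβ) y hβ'⟩
    · exact mem_iUnion.2 ⟨β, (closed_Cl φ _).inter x hβ y (M_mono φ r h hβ')⟩
  cd x hx := by
    obtain ⟨β, hβ⟩ := mem_iUnion.1 hx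
    exact mem_iUnion.2 ⟨β, (closed_Cl φ _).cd x hβ⟩
  phi x hx y hy := by
    obtain ⟨β, hβ⟩ := mem_iUnion.1 hx
    exact mem_iUnion.2 ⟨β, (closed_Cl φ _).phi x hβ hy⟩

/-- `γ` is protected with respect to the filter `G` -/
def Prot (G : Filter ℕ) (γ : Ω) : Prop :=
  (A r S γ).Nonempty ∧
    ∀ κ : R → ℕ, ∃ m, ∀ a ∈ A r S γ, ∃ b ∈ A r S γ, κ b = m ∧ le' a b ∈ G

/-- the requirements on the `α`-th filter -/
structure Step (α : Ω) (prev : Ω → Filter ℕ) (F : Filter ℕ) : Prop where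
  neBot : NeBot F
  cofinite : F ≤ Filter.cofinite
  le : ∀ β < α, F ≤ prev β
  base : ∀ s ∈ F, ∃ Y ∈ F, cyl Y ∈ M φ r α ∧ Y ⊆ s
  dec : ∀ Y, cyl Y ∈ M φ r α → Y ∈ F ∨ Yᶜ ∈ F
  prom : ∀ γ < α, Prot r S (prev γ) γ → ∀ f ∈ M φ r α, (∀ a ∈ A r S γ, le' a f ∈ F) →
    ∃ c ∈ M φ r γ, (∀ a ∈ A r S γ, le' a c ∈ prev γ) ∧ le' c f ∈ F

lemma Step.congr {α : Ω} {prev prev' : Ω → Filter ℕ} {F : Filter ℕ}
    (h : ∀ β < α, prev β = prev' β) (hF : Step φ r S α prev F) : Step φ r S α prev' F where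
  neBot := hF.neBot
  cofinite := hF.cofinite
  le β hβ := by rw [← h β hβ]; exact hF.le β hβ
  base := hF.base
  dec := hF.dec
  prom γ hγ hP f hf hall := by
    rw [← h γ hγ] at hP ⊢
    exact hF.prom γ hγ hP f hf hall

open Classical in
/-- the sequence of filters -/
noncomputable def Fil : Ω → Filter ℕ :=
  WellFounded.fix (wellFounded_lt (α := Ω)) (fun α rec =>
    if h : ∃ F, Step φ r S α (fun β => if hβ : β < α then rec β hβ else ⊥) F then h.choose
    else ⊥)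

open Classical in
lemma Fil_eq (α : Ω) : Fil φ r S α =
    if h : ∃ F, Step φ r S α (fun β => if _hβ : β < α then Fil φ r S β else ⊥) F then h.choose
    else ⊥ :=
  WellFounded.fix_eq (wellFounded_lt (α := Ω)) _ α

lemma Fil_step_of_exists {α : Ω} (h : ∃ F, Step φ r S α (Fil φ r S) F) :
    Step φ r S α (Fil φ r S) (Fil φ r S α) := by
  classical
  have h' : ∃ F, Step φ r S α (fun β => if _hβ : β < α then Fil φ r S β else ⊥) F := by
    obtain ⟨F, hF⟩ := h
    exact ⟨F, hF.congr φ r S (fun β hβ => by simp [hβ])⟩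
  have h1 : Fil φ r S α = h'.choose := by
    rw [Fil_eq]
    exact dif_pos h'
  rw [h1]
  exact h'.choose_spec.congr φ r S (fun β hβ => by simp [hβ])

variable {φ} in
theorem Fil_step (hφc : ∀ A, (φ A).Countable)
    (hφ : ∀ A B : R, A ⊆ B → ∃ C, C ∈ φ A ∧ C ∈ φ B ∧ A ⊆ C ∧ C ⊆ B) (α : Ω) :
    Step φ r S α (Fil φ r S) (Fil φ r S α) := by
  induction α using WellFoundedLT.induction with
  | ind α ih =>
    apply Fil_step_of_exists
    set F := Fil φ r S with hFdef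
    -- the intersection of the previous filters
    let Gi : Option (Iio α) → Filter ℕ := fun i => i.elim Filter.cofinite (fun β => F β)
    have hGi : ∀ β : Iio α, Gi (some β) = F β := fun _ => rfl
    have hGn : Gi none = Filter.cofinite := rfl
    have hFanti : ∀ β β' : Ω, β ≤ β' → β' < α → F β' ≤ F β := by
      intro β β' h h'
      rcases h.lt_or_eq with h | h
      · exact (ih β' h').le β h
      · rw [h]
    have hdir : Directed (· ≥ ·) Gi := by
      rintro (_ | β) (_ | β')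
      · exact ⟨none, le_rfl, le_rfl⟩
      · exact ⟨some β', (ih β' β'.2).cofinite, le_rfl⟩
      · exact ⟨some β, le_rfl, (ih β β.2).cofinite⟩
      · rcases le_total β.1 β'.1 with h | h
        · exact ⟨some β', hFanti _ _ h β'.2, le_rfl⟩
        · exact ⟨some β, le_rfl, hFanti _ _ h β.2⟩
    set G : Filter ℕ := ⨅ i, Gi i with hG
    have hGne : NeBot G := by
      apply iInf_neBot_of_directed hdir
      rintro (_ | β)
      · rw [hGn]; infer_instance
      · exact (ih β β.2).neBot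
    have hGle : ∀ β < α, G ≤ F β := fun β hβ => iInf_le Gi (some ⟨β, hβ⟩)
    have hGcof : G ≤ Filter.cofinite := iInf_le Gi none
    have hmemG : ∀ s, s ∈ G ↔ ∃ i, s ∈ Gi i := fun s => mem_iInf_of_directed hdir s
    -- the set `N`
    set N : Set R := Cl φ (K₀ ∪ r '' {δ | ∃ β < α, δ < β}) with hN
    have hNcl : Closed φ N := closed_Cl φ _
    have hMN : ∀ β < α, M φ r β ⊆ N := by
      intro β hβ
      apply Cl_mono
      apply union_subset_union_right
      apply image_mono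
      exact fun δ hδ => ⟨β, hβ, hδ⟩
    have hNM : N ⊆ M φ r α := by
      apply Cl_mono
      apply union_subset_union_right
      apply image_mono
      rintro δ ⟨β, hβ, hδ⟩
      exact hδ.trans hβ
    have hbase : ∀ s ∈ G, ∃ Y ∈ G, cyl Y ∈ N ∧ Y ⊆ s := by
      intro s hs
      obtain ⟨(_ | β), hi⟩ := (hmemG s).1 hs
      · exact ⟨s, hs, subset_Cl φ _ (Or.inl ⟨s, hi, rfl⟩), Subset.rfl⟩
      · obtain ⟨Y, hY, hYM, hYs⟩ := (ih β β.2).base s hi
        exact ⟨Y, hGle β β.2 hY, hMN β β.2 hYM, hYs⟩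
    let ι := {γ : Iio α // Prot r S (F γ) γ}
    have hι : #ι ≤ ℵ₁ := (mk_subtype_le _).trans (mk_Iio_le α)
    obtain ⟨F', hF'G, hF'n, hF'b, hF'd, hF'p⟩ := ext hφc hφ hNcl (closed_Cl φ _) hNM
      (K₀_nonempty.mono (K₀_subset φ r α)) (small_M r hφc α) hGne hbase hι
      (A := fun i => A r S i.1.1)
      (K := fun i => {c | c ∈ M φ r i.1.1 ∧ ∀ a ∈ A r S i.1.1, le' a c ∈ F i.1.1})
      (fun i => (A_subset φ r S i.1.1).trans (hMN _ i.1.2))
      (fun i => i.2.1)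
      (fun i κ => by
        obtain ⟨m, hm⟩ := i.2.2 κ
        refine ⟨m, fun a ha => ?_⟩
        obtain ⟨b, hb, h1, h2⟩ := hm a ha
        exact ⟨b, hb, h1, hGle _ i.1.2 h2⟩)
      (fun i C hC hall => by
        obtain ⟨⟨γ, hγ⟩, hP⟩ := i
        -- `C` lies in some `M β`
        have hNsub : N ⊆ ⋃ β : Iio α, M φ r β := by
          apply Cl_min (closed_union r α)
          rintro x (hx | ⟨δ, ⟨β, hβ, hδ⟩, rfl⟩)
          · exact mem_iUnion.2 ⟨⟨γ, hγ⟩, K₀_subset φ r γ hx⟩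
          · exact mem_iUnion.2 ⟨⟨β, hβ⟩, r_mem φ r hδ⟩
        obtain ⟨⟨β, hβ⟩, hCβ⟩ := mem_iUnion.1 (hNsub hC)
        set β' := max β γ with hβ'
        have hβ'α : β' < α := max_lt hβ hγ
        have hCβ' : C ∈ M φ r β' := M_mono φ r (le_max_left _ _) hCβ
        have hall' : ∀ a ∈ A r S γ, le' a C ∈ F β' := by
          intro a ha
          have haM : a ∈ M φ r β' := M_mono φ r (le_max_right _ _) (A_subset φ r S γ ha)
          have hc : cyl (le' a C)ᶜ ∈ M φ r β' := (closed_Cl φ _).cyl_compl_le_mem haM hCβ'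
          rcases (ih β' hβ'α).dec _ hc with h | h
          · exfalso
            have h2 := inter_mem (hall a ha) (hGle β' hβ'α h)
            rw [inter_compl_self] at h2
            exact hGne.ne (empty_mem_iff_bot.1 h2)
          · rwa [compl_compl] at h
        rcases (le_max_right β γ).lt_or_eq with h | h
        · obtain ⟨c, hc, hc1, hc2⟩ := (ih β' hβ'α).prom γ h hP C hCβ' hall'
          exact ⟨c, ⟨hc, hc1⟩, hGle β' hβ'α hc2⟩
        · rw [← hβ'] at h
          rw [← h] at hCβ' hall'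
          refine ⟨C, ⟨hCβ', hall'⟩, ?_⟩
          rw [le'_refl]
          exact univ_mem)
    refine ⟨F', hF'n, hF'G.trans hGcof, fun β hβ => hF'G.trans (hGle β hβ), hF'b, hF'd, ?_⟩
    intro γ hγ hP f hf hall
    obtain ⟨c, ⟨hc1, hc2⟩, hc3⟩ := hF'p ⟨⟨γ, hγ⟩, hP⟩ f hf hall
    exact ⟨c, hc1, hc2, hc3⟩

end

end Pool.Agent.Lib.MP_6b029b_lc
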