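import Pool.Agent.Lib.MP_6b029b_lc.Defs

open Filter Set

namespace Pool.Agent.Lib.MP_6b029b_lc

/-- A function `ℕ → 𝒫(ℕ)` coded as a subset of `ℕ × ℕ`. -/
abbrev R := Set (ℕ × ℕ)

def cyl (Y : Set ℕ) : R := {p | p.1 ∈ Y}

def cd (x : R) : R := {p | ∃ k, (p.1, k) ∈ x}

/-- The set of `n` with `a(n) ⊆ f(n)`. -/
def le' (a f : R) : Set ℕ := {n | ∀ k, (n, k) ∈ a → (n, k) ∈ f}

lemma cyl_compl_le (a f : R) : cyl (le' a f)ᶜ = cd (a ∩ fᶜ) := by
  ext ⟨n, k⟩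
  simp [cyl, cd, le']

lemma cyl_compl (Y : Set ℕ) : cyl Yᶜ = (cyl Y)ᶜ := rfl

lemma cyl_inter (Y Z : Set ℕ) : cyl (Y ∩ Z) = cyl Y ∩ cyl Z := rfl

lemma cyl_injective : Function.Injective cyl := by
  intro Y Z h
  ext n
  have : ((n, 0) : ℕ × ℕ) ∈ cyl Y ↔ ((n, 0) : ℕ × ℕ) ∈ cyl Z := by rw [h]
  exact this

lemma le'_refl (a : R) : le' a a = univ := by
  ext; simp [le']

lemma le'_trans (a b c : R) : le' a b ∩ le' b c ⊆ le' a c :=
  fun _ h k hk => h.2 k (h.1 k hk)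

structure Closed (φ : R → Set R) (N : Set R) : Prop where
  compl : ∀ x ∈ N, xᶜ ∈ N
  inter : ∀ x ∈ N, ∀ y ∈ N, x ∩ y ∈ N
  cd : ∀ x ∈ N, cd x ∈ N
  phi : ∀ x ∈ N, φ x ⊆ N

lemma Closed.cyl_compl_le_mem {φ : R → Set R} {N : Set R} (h : Closed φ N) {a f : R}
    (ha : a ∈ N) (hf : f ∈ N) : cyl (le' a f)ᶜ ∈ N := by
  rw [cyl_compl_le]
  exact h.cd _ (h.inter _ ha _ (h.compl _ hf))

lemma generate_insert' (X : Set ℕ) (𝒳 : Set (Set ℕ)) :
    generate (insert X 𝒳) = 𝓟 X ⊓ generate 𝒳 := by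
  rw [insert_eq, generate_union]
  congr 1
  apply le_antisymm
  · rw [le_principal_iff]
    exact mem_generate_of_mem rfl
  · rw [le_generate_iff]
    rintro _ rfl
    exact mem_principal_self _

lemma generate_anti {𝒳 𝒳' : Set (Set ℕ)} (h : 𝒳 ⊆ 𝒳') : generate 𝒳' ≤ generate 𝒳 := by
  rw [le_generate_iff]
  exact fun X hX => mem_generate_of_mem (h hX)

lemma solve {φ : R → Set R} (hφc : ∀ A, (φ A).Countable)
    (hφ : ∀ A B : R, A ⊆ B → ∃ C, C ∈ φ A ∧ C ∈ φ B ∧ A ⊆ C ∧ C ⊆ B)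
    {N N' : Set R} (hN : Closed φ N) (hN' : Closed φ N') (hNN' : N ⊆ N')
    {F : Filter ℕ} (hbase : ∀ s ∈ F, ∃ Y ∈ F, cyl Y ∈ N ∧ Y ⊆ s)
    {A K : Set R} (hA : A ⊆ N) (hne : A.Nonempty)
    (hσ : ∀ κ : R → ℕ, ∃ m, ∀ a ∈ A, ∃ b ∈ A, κ b = m ∧ le' a b ∈ F)
    (hK : ∀ C ∈ N, (∀ a ∈ A, le' a C ∈ F) → ∃ c ∈ K, le' c C ∈ F)
    {𝒳 : Set (Set ℕ)} (h𝒳 : 𝒳.Countable) (hp : NeBot (F ⊓ generate 𝒳)) {f : R} (hf : f ∈ N') :
    ∃ X, cyl X ∈ N' ∧ NeBot (F ⊓ generate (insert X 𝒳)) ∧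
      ((∃ a ∈ A, (le' a f)ᶜ = X) ∨ ∃ c ∈ K, le' c f ∈ F ⊓ generate 𝒳) := by
  classical
  by_cases h1 : ∃ a ∈ A, NeBot (F ⊓ generate (insert (le' a f)ᶜ 𝒳))
  · obtain ⟨a, ha, h⟩ := h1
    exact ⟨(le' a f)ᶜ, hN'.cyl_compl_le_mem (hNN' (hA ha)) hf, h, Or.inl ⟨a, ha, rfl⟩⟩
  · push Not at h1
    -- the second alternative
    have h2 : ∀ a ∈ A, le' a f ∈ F ⊓ generate 𝒳 := by
      intro a ha
      have := h1 a ha
      rw [generate_insert', inf_comm (𝓟 _), ← inf_assoc, inf_principal_eq_bot,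
        compl_compl] at this
      exact this
    have h3 : ∀ a ∈ A, ∃ Y ∈ F, cyl Y ∈ N ∧ ∃ s : Set (Set ℕ), s ⊆ 𝒳 ∧ s.Finite ∧
        Y ∩ ⋂₀ s ⊆ le' a f := by
      intro a ha
      obtain ⟨t₁, ht₁, t₂, ht₂, h⟩ := mem_inf_iff_superset.1 (h2 a ha)
      obtain ⟨Y, hY, hYN, hYt⟩ := hbase t₁ ht₁
      obtain ⟨s, hs, hsf, hst⟩ := mem_generate_iff.1 ht₂
      exact ⟨Y, hY, hYN, s, hs, hsf, (inter_subset_inter hYt hst).trans h⟩
    let W : Set (Set ℕ) → R := fun s => {p | p.1 ∈ ⋂₀ s → p ∈ f}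
    have h4 : ∀ a ∈ A, ∃ Y ∈ F, ∃ s : Set (Set ℕ), ∃ C : R, s ⊆ 𝒳 ∧ s.Finite ∧ C ∈ N ∧
        C ∈ φ (W s) ∧ Y ⊆ le' a C ∧ C ⊆ W s := by
      intro a ha
      obtain ⟨Y, hY, hYN, s, hs, hsf, hsub⟩ := h3 a ha
      have hg : a ∩ cyl Y ⊆ W s := by
        rintro ⟨n, k⟩ ⟨hna, hnY⟩ hns
        exact hsub ⟨hnY, hns⟩ k hna
      obtain ⟨C, hC1, hC2, hC3, hC4⟩ := hφ _ _ hg
      refine ⟨Y, hY, s, C, hs, hsf, hN.phi _ (hN.inter _ (hA ha) _ hYN) hC1, hC2, ?_, hC4⟩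
      intro n hn k hk
      exact hC3 ⟨hk, hn⟩
    choose! Y hYF s C hs hsf hCN hCφ hYC hCW using h4
    -- the countable set of pairs
    let Q : Set (Set (Set ℕ) × R) := ⋃ t ∈ {t : Set (Set ℕ) | t.Finite ∧ t ⊆ 𝒳}, {t} ×ˢ φ (W t)
    have hQ : Q.Countable := by
      apply Set.Countable.biUnion
      · exact Set.countable_ofPred_finite_subset h𝒳
      · intro t _
        exact (countable_singleton t).prod (hφc _)
    have hmem : ∀ a ∈ A, (s a, C a) ∈ Q := by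
      intro a ha
      refine mem_biUnion (x := s a) ⟨hsf a ha, hs a ha⟩ ?_
      exact ⟨rfl, hCφ a ha⟩
    obtain ⟨e, he⟩ := Set.countable_iff_exists_injOn.1 hQ
    obtain ⟨m, hm⟩ := hσ (fun a => e (s a, C a))
    obtain ⟨a₀, ha₀⟩ := hne
    obtain ⟨b₀, hb₀, hb₀m, -⟩ := hm a₀ ha₀
    have h5 : ∀ a ∈ A, le' a (C b₀) ∈ F := by
      intro a ha
      obtain ⟨b, hb, hbm, hab⟩ := hm a ha
      have : (s b, C b) = (s b₀, C b₀) := he (hmem b hb) (hmem b₀ hb₀) (by rw [hbm, hb₀m])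
      have hCb : C b = C b₀ := congrArg Prod.snd this
      have h6 : le' b (C b₀) ∈ F := by
        rw [← hCb]
        exact mem_of_superset (hYF b hb) (hYC b hb)
      exact mem_of_superset (inter_mem hab h6) (le'_trans _ _ _)
    obtain ⟨c, hcK, hc⟩ := hK (C b₀) (hCN b₀ hb₀) h5
    have h7 : le' (C b₀) f ∈ generate 𝒳 := by
      rw [mem_generate_iff]
      refine ⟨s b₀, hs b₀ hb₀, hsf b₀ hb₀, ?_⟩
      intro n hn k hk
      exact hCW b₀ hb₀ hk hn
    have hf2 : (f ∩ fᶜ)ᶜ ∈ N' := hN'.compl _ (hN'.inter _ hf _ (hN'.compl _ hf))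
    refine ⟨univ, ?_, ?_, Or.inr ⟨c, hcK, ?_⟩⟩
    · have : cyl univ = (f ∩ fᶜ)ᶜ := by
        ext p; simp [cyl]
      rw [this]
      exact hf2
    · rw [generate_insert', principal_univ, top_inf_eq]
      exact hp
    · exact mem_of_superset (inter_mem (mem_inf_of_left hc) (mem_inf_of_right h7))
        (le'_trans _ _ _)

open Cardinal in
/-- Solving `ℵ₁` many tasks one after the other. -/
lemma iterate {T : Type} (hT : #T ≤ ℵ₁) (F : Filter ℕ) [NeBot F] (P : Set ℕ → Prop)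
    (Sat : T → Set (Set ℕ) → Prop)
    (hmono : ∀ t 𝒳 𝒳', 𝒳 ⊆ 𝒳' → Sat t 𝒳 → Sat t 𝒳')
    (hsolve : ∀ t 𝒳, 𝒳.Countable → NeBot (F ⊓ generate 𝒳) → (∀ X ∈ 𝒳, P X) →
      ∃ X, P X ∧ NeBot (F ⊓ generate (insert X 𝒳)) ∧ Sat t (insert X 𝒳)) :
    ∃ 𝒳, (∀ X ∈ 𝒳, P X) ∧ NeBot (F ⊓ generate 𝒳) ∧ ∀ t, Sat t 𝒳 := by
  classical
  rcases isEmpty_or_nonempty T with hTe | hTn
  · refine ⟨∅, by simp, ?_, fun t => (hTe.false t).elim⟩
    have : generate (∅ : Set (Set ℕ)) = ⊤ := by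
      rw [generate_empty]
    rw [this, inf_top_eq]
    infer_instance
  · set Ω₁ := (ℵ₁ : Cardinal.{0}).ord.ToType with hΩ₁
    have hcard : #Ω₁ = ℵ₁ := by rw [hΩ₁, mk_ord_toType]
    have hle : #T ≤ #Ω₁ := by rw [hcard]; exact hT
    obtain ⟨j⟩ := Cardinal.le_def _ _ |>.1 hle
    let t : Ω₁ → T := Function.invFun j
    have ht : Function.Surjective t := Function.invFun_surjective j.injective
    -- the recursion
    let S : Set (Set ℕ) → T → Set ℕ := fun 𝒳 τ =>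
      if h : ∃ X, P X ∧ NeBot (F ⊓ generate (insert X 𝒳)) ∧ Sat τ (insert X 𝒳) then h.choose
      else ∅
    let X : Ω₁ → Set ℕ := WellFounded.fix (wellFounded_lt (α := Ω₁))
      (fun ν rec => S {Z | ∃ μ, ∃ h : μ < ν, rec μ h = Z} (t ν))
    have hX : ∀ ν, X ν = S (X '' Iio ν) (t ν) := by
      intro ν
      have h1 : X ν = S {Z | ∃ μ, ∃ _h : μ < ν, X μ = Z} (t ν) :=
        WellFounded.fix_eq (wellFounded_lt (α := Ω₁)) _ ν
      rw [h1]
      congr 1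
      ext Z
      simp [Set.image]
    have hcount : ∀ ν : Ω₁, (X '' Iio ν).Countable := by
      intro ν
      apply Countable.image
      rw [← Cardinal.le_aleph0_iff_set_countable, ← Cardinal.lt_aleph_one_iff]
      have h1 := Cardinal.mk_Iio_lt ν (by rw [hcard]; exact (Ordinal.type_toType _).symm)
      rwa [hcard] at h1
    have key : ∀ ν, P (X ν) ∧ NeBot (F ⊓ generate (insert (X ν) (X '' Iio ν))) ∧
        Sat (t ν) (insert (X ν) (X '' Iio ν)) := by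
      intro ν
      induction ν using WellFoundedLT.induction with
      | ind ν ih =>
        have hproper : NeBot (F ⊓ generate (X '' Iio ν)) := by
          rcases isEmpty_or_nonempty (Iio ν) with he | hn
          · have : X '' Iio ν = ∅ := by
              rw [image_eq_empty]
              exact Set.isEmpty_coe_sort.1 he
            rw [this, generate_empty, inf_top_eq]
            infer_instance
          · have h1 : X '' Iio ν = ⋃ μ : Iio ν, insert (X μ) (X '' Iio μ.1) := by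
              ext Z
              simp only [mem_image, mem_Iio, mem_iUnion, mem_insert_iff, Subtype.exists]
              constructor
              · rintro ⟨μ, hμ, rfl⟩
                exact ⟨μ, hμ, Or.inl rfl⟩
              · rintro ⟨μ, hμ, rfl | ⟨μ', hμ', rfl⟩⟩
                · exact ⟨μ, hμ, rfl⟩
                · exact ⟨μ', hμ'.trans hμ, rfl⟩
            rw [h1, generate_iUnion, inf_iInf]
            apply iInf_neBot_of_directed
            · intro a b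
              rcases le_total a.1 b.1 with h | h
              · refine ⟨b, ?_, le_rfl⟩
                apply inf_le_inf_left
                apply giGenerate _ |>.gc.monotone_l
                rintro Z (rfl | ⟨μ, hμ, rfl⟩)
                · rcases h.lt_or_eq with h | h
                  · exact Or.inr ⟨a.1, h, rfl⟩
                  · rw [h]; exact Or.inl rfl
                · exact Or.inr ⟨μ, lt_of_lt_of_le hμ h, rfl⟩
              · refine ⟨a, le_rfl, ?_⟩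
                apply inf_le_inf_left
                apply giGenerate _ |>.gc.monotone_l
                rintro Z (rfl | ⟨μ, hμ, rfl⟩)
                · rcases h.lt_or_eq with h | h
                  · exact Or.inr ⟨b.1, h, rfl⟩
                  · rw [h]; exact Or.inl rfl
                · exact Or.inr ⟨μ, lt_of_lt_of_le hμ h, rfl⟩
            · exact fun μ => (ih μ.1 μ.2).2.1
        have hP : ∀ Z ∈ X '' Iio ν, P Z := by
          rintro _ ⟨μ, hμ, rfl⟩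
          exact (ih μ hμ).1
        have hex := hsolve (t ν) _ (hcount ν) hproper hP
        have hXν : X ν = hex.choose := by
          rw [hX ν]
          exact dif_pos hex
        rw [hXν]
        exact hex.choose_spec
    refine ⟨range X, ?_, ?_, ?_⟩
    · rintro _ ⟨ν, rfl⟩
      exact (key ν).1
    · have : Nonempty Ω₁ := by
        rw [← mk_ne_zero_iff, hcard]
        exact (Cardinal.aleph_pos 1).ne'
      have h1 : range X = ⋃ μ : Ω₁, insert (X μ) (X '' Iio μ) := by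
        ext Z
        simp only [mem_range, mem_iUnion, mem_insert_iff, mem_image]
        constructor
        · rintro ⟨μ, rfl⟩
          exact ⟨μ, Or.inl rfl⟩
        · rintro ⟨μ, rfl | ⟨μ', _, rfl⟩⟩
          · exact ⟨μ, rfl⟩
          · exact ⟨μ', rfl⟩
      rw [h1, generate_iUnion, inf_iInf]
      apply iInf_neBot_of_directed
      · intro a b
        rcases le_total a b with h | h
        · refine ⟨b, ?_, le_rfl⟩
          apply inf_le_inf_left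
          apply giGenerate _ |>.gc.monotone_l
          rintro Z (rfl | ⟨μ, hμ, rfl⟩)
          · rcases h.lt_or_eq with h | h
            · exact Or.inr ⟨a, h, rfl⟩
            · rw [h]; exact Or.inl rfl
          · exact Or.inr ⟨μ, lt_of_lt_of_le hμ h, rfl⟩
        · refine ⟨a, le_rfl, ?_⟩
          apply inf_le_inf_left
          apply giGenerate _ |>.gc.monotone_l
          rintro Z (rfl | ⟨μ, hμ, rfl⟩)
          · rcases h.lt_or_eq with h | h
            · exact Or.inr ⟨b, h, rfl⟩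
            · rw [h]; exact Or.inl rfl
          · exact Or.inr ⟨μ, lt_of_lt_of_le hμ h, rfl⟩
      · exact fun μ => (key μ).2.1
    · intro τ
      obtain ⟨ν, rfl⟩ := ht τ
      refine hmono _ _ _ ?_ (key ν).2.2
      rintro Z (rfl | ⟨μ, _, rfl⟩)
      · exact mem_range_self _
      · exact mem_range_self _


lemma cyl_sInter_mem {φ : R → Set R} {N : Set R} (hN : Closed φ N) (hne : N.Nonempty)
    {s : Set (Set ℕ)} (hs : s.Finite) (h : ∀ X ∈ s, cyl X ∈ N) : cyl (⋂₀ s) ∈ N := by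
  induction s, hs using Set.Finite.induction_on with
  | empty =>
    obtain ⟨f, hf⟩ := hne
    have : cyl (⋂₀ (∅ : Set (Set ℕ))) = (f ∩ fᶜ)ᶜ := by
      ext p; simp [cyl]
    rw [this]
    exact hN.compl _ (hN.inter _ hf _ (hN.compl _ hf))
  | @insert a s _ _ ih =>
    rw [sInter_insert, cyl_inter]
    exact hN.inter _ (h a (mem_insert _ _)) _ (ih fun X hX => h X (mem_insert_of_mem _ hX))

open Cardinal in
/-- Extending a filter based on `N` to one which decides `N'` and keeps all promises. -/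
lemma ext {φ : R → Set R} (hφc : ∀ A, (φ A).Countable)
    (hφ : ∀ A B : R, A ⊆ B → ∃ C, C ∈ φ A ∧ C ∈ φ B ∧ A ⊆ C ∧ C ⊆ B)
    {N N' : Set R} (hN : Closed φ N) (hN' : Closed φ N') (hNN' : N ⊆ N') (hN'ne : N'.Nonempty)
    (hcard : #N' ≤ ℵ₁)
    {F : Filter ℕ} (hF : NeBot F) (hbase : ∀ s ∈ F, ∃ Y ∈ F, cyl Y ∈ N ∧ Y ⊆ s)
    {ι : Type} (hι : #ι ≤ ℵ₁) {A K : ι → Set R} (hA : ∀ i, A i ⊆ N) (hne : ∀ i, (A i).Nonempty)
    (hσ : ∀ i, ∀ κ : R → ℕ, ∃ m, ∀ a ∈ A i, ∃ b ∈ A i, κ b = m ∧ le' a b ∈ F)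
    (hK : ∀ i, ∀ C ∈ N, (∀ a ∈ A i, le' a C ∈ F) → ∃ c ∈ K i, le' c C ∈ F) :
    ∃ F' ≤ F, NeBot F' ∧ (∀ s ∈ F', ∃ Y ∈ F', cyl Y ∈ N' ∧ Y ⊆ s) ∧
      (∀ Y, cyl Y ∈ N' → Y ∈ F' ∨ Yᶜ ∈ F') ∧
      ∀ i, ∀ f ∈ N', (∀ a ∈ A i, le' a f ∈ F') → ∃ c ∈ K i, le' c f ∈ F' := by
  classical
  let T := {Y : Set ℕ // cyl Y ∈ N'} ⊕ (ι × N')
  have hT : #T ≤ ℵ₁ := by
    have h1 : #{Y : Set ℕ // cyl Y ∈ N'} ≤ ℵ₁ := by
      refine le_trans ?_ hcard
      refine mk_le_of_injective (f := fun Y => (⟨cyl Y.1, Y.2⟩ : N')) ?_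
      intro Y Z h
      exact Subtype.ext (cyl_injective (congrArg Subtype.val h))
    have h2 : #(ι × N') ≤ ℵ₁ := by
      rw [mk_prod, lift_id, lift_id]
      exact (mul_le_mul' hι hcard).trans (mul_eq_self (aleph0_le_aleph 1)).le
    rw [mk_sum, lift_id, lift_id]
    exact (add_le_add h1 h2).trans (add_eq_self (aleph0_le_aleph 1)).le
  let Sat : T → Set (Set ℕ) → Prop := fun t 𝒳 =>
    match t with
    | Sum.inl Y => Y.1 ∈ 𝒳 ∨ Y.1ᶜ ∈ 𝒳
    | Sum.inr (i, f) => (∃ a ∈ A i, (le' a f.1)ᶜ ∈ 𝒳) ∨ ∃ c ∈ K i, le' c f.1 ∈ F ⊓ generate 𝒳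
  obtain ⟨𝒳, h𝒳P, h𝒳n, h𝒳S⟩ := iterate hT F (fun X => cyl X ∈ N') Sat (by
      rintro (Y | ⟨i, f⟩) 𝒳 𝒳' hsub h
      · rcases h with h | h
        · exact Or.inl (hsub h)
        · exact Or.inr (hsub h)
      · rcases h with ⟨a, ha, h⟩ | ⟨c, hc, h⟩
        · exact Or.inl ⟨a, ha, hsub h⟩
        · exact Or.inr ⟨c, hc, inf_le_inf_left F (generate_anti hsub) h⟩) (by
      rintro (Y | ⟨i, f⟩) 𝒳 hc hp hP
      · by_cases h : NeBot (F ⊓ generate (insert Y.1 𝒳))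
        · exact ⟨Y.1, Y.2, h, Or.inl (mem_insert _ _)⟩
        · refine ⟨Y.1ᶜ, ?_, ?_, Or.inr (mem_insert _ _)⟩
          · rw [cyl_compl]
            exact hN'.compl _ Y.2
          · rw [not_neBot, generate_insert', inf_comm (𝓟 _), ← inf_assoc,
              inf_principal_eq_bot] at h
            rw [generate_insert', inf_comm (𝓟 _), ← inf_assoc]
            rwa [inf_eq_left.2 (le_principal_iff.2 h)]
      · obtain ⟨X, hX, hn, h⟩ := solve hφc hφ hN hN' hNN' hbase (hA i) (hne i) (hσ i) (hK i)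
          hc hp f.2
        refine ⟨X, hX, hn, ?_⟩
        rcases h with ⟨a, ha, rfl⟩ | ⟨c, hc, h⟩
        · exact Or.inl ⟨a, ha, mem_insert _ _⟩
        · exact Or.inr ⟨c, hc, inf_le_inf_left F
            (generate_anti (subset_insert _ _)) h⟩)
  refine ⟨F ⊓ generate 𝒳, inf_le_left, h𝒳n, ?_, ?_, ?_⟩
  · intro s hs
    obtain ⟨t₁, ht₁, t₂, ht₂, h⟩ := mem_inf_iff_superset.1 hs
    obtain ⟨Y, hY, hYN, hYt⟩ := hbase t₁ ht₁
    obtain ⟨s', hs', hsf, hst⟩ := mem_generate_iff.1 ht₂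
    refine ⟨Y ∩ ⋂₀ s', inter_mem_inf hY (mem_generate_iff.2 ⟨s', hs', hsf, Subset.rfl⟩), ?_, ?_⟩
    · rw [cyl_inter]
      exact hN'.inter _ (hNN' hYN) _ (cyl_sInter_mem hN' hN'ne hsf fun X hX => h𝒳P X (hs' hX))
    · exact (inter_subset_inter hYt hst).trans h
  · intro Y hY
    rcases h𝒳S (Sum.inl ⟨Y, hY⟩) with h | h
    · exact Or.inl (mem_inf_of_right (mem_generate_of_mem h))
    · exact Or.inr (mem_inf_of_right (mem_generate_of_mem h))
  · intro i f hf hall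
    rcases h𝒳S (Sum.inr (i, ⟨f, hf⟩)) with ⟨a, ha, h⟩ | h
    · exfalso
      have h1 : (le' a f)ᶜ ∈ F ⊓ generate 𝒳 := mem_inf_of_right (mem_generate_of_mem h)
      have h2 := inter_mem (hall a ha) h1
      rw [inter_compl_self] at h2
      exact h𝒳n.ne (empty_mem_iff_bot.1 h2)
    · exact h

end Pool.Agent.Lib.MP_6b029b_lc
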